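import Pool.Agent.TH171.Cs.Main
import Mathlib.Probability.ProductMeasure

/-!
# Consensus from single-reader single-writer registers needs expected total work `Ω(n log n)`
-/

namespace Pool.Agent.Results.MP_217fdb_lc.LogFactorLowerBound

open scoped ENNReal
open MeasureTheory TH171.Cs

/-- `A` solves wait-free binary consensus: for every input vector `b` and every oblivious schedule
`σ`, with probability one (over the independent local coins of the processors, each with law `ν`)
all outputs agree and each output is somebody's input, and every processor that is scheduled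
infinitely often outputs. -/
structure Solves {n : ℕ} {Ω R V : Type} [MeasurableSpace Ω] (A : Alg n Ω R V) (ν : Measure Ω)
    [IsProbabilityMeasure ν] : Prop where
  agree : ∀ (b : Fin n → Bool) (σ : ℕ → Fin n), ∀ᵐ ω ∂(Measure.pi (fun _ : Fin n => ν)),
    ∀ t i j x y, (run A b ω σ t).dec i = some x → (run A b ω σ t).dec j = some y → x = y
  valid : ∀ (b : Fin n → Bool) (σ : ℕ → Fin n), ∀ᵐ ω ∂(Measure.pi (fun _ : Fin n => ν)),
    ∀ t i x, (run A b ω σ t).dec i = some x → ∃ k, b k = x
  waitfree : ∀ (b : Fin n → Bool) (σ : ℕ → Fin n) (i : Fin n), (∀ T, ∃ t, T ≤ t ∧ σ t = i) →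
    ∀ᵐ ω ∂(Measure.pi (fun _ : Fin n => ν)), ∃ t, ((run A b ω σ t).dec i).isSome

/-- The expected total work for the input `b` and the schedule `σ`: the expectation of the total
number of read and write operations executed. -/
noncomputable def expectedWork {n : ℕ} {Ω R V : Type} [MeasurableSpace Ω] (A : Alg n Ω R V)
    (ν : Measure Ω) [IsProbabilityMeasure ν] (b : Fin n → Bool) (σ : ℕ → Fin n) : ℝ≥0∞ :=
  ∫⁻ ω, (⨆ t, ((run A b ω σ t).ops : ℝ≥0∞)) ∂(Measure.pi (fun _ : Fin n => ν))

/-- The law of an infinite sequence of fair coins. -/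
noncomputable def fairCoins : Measure (ℕ → Bool) :=
  Measure.infinitePi (fun _ : ℕ => (PMF.uniformOfFintype Bool).toMeasure)

instance : IsProbabilityMeasure fairCoins := by
  unfold fairCoins
  infer_instance

/-- `W(n)`: the infimum, over all algorithms with fair local coins that solve consensus, of the
largest expected total work over all inputs and all oblivious schedules. -/
noncomputable def W (n : ℕ) : ℝ≥0∞ :=
  ⨅ (R : Type) (V : Type) (_ : Countable R) (_ : Countable V) (A : Alg n (ℕ → Bool) R V)
    (_ : Solves A fairCoins), ⨆ (b : Fin n → Bool) (σ : ℕ → Fin n), expectedWork A fairCoins b σ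

/-- Every algorithm that solves consensus with single-reader single-writer registers has an input
for which its expected total work under the round robin schedule is at least `n log n / 64`,
whatever the local random sources are. In particular `W(n) ≥ n log n / 64`. -/
theorem result :
    (∀ (n : ℕ) (hn : 297 ≤ n) (Ω R V : Type) [MeasurableSpace Ω] [Countable R] [Countable V]
      (ν : Measure Ω) [IsProbabilityMeasure ν] (A : Alg n Ω R V), Solves A ν →
      ∃ b : Fin n → Bool, ENNReal.ofReal (n * Real.log n / 64)
        ≤ expectedWork A ν b (fun t => ⟨t % n, Nat.mod_lt t (by omega)⟩)) ∧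
    ∀ n : ℕ, 297 ≤ n → ENNReal.ofReal (n * Real.log n / 64) ≤ W n := by
  have h : ∀ (n : ℕ) (hn : 297 ≤ n) (Ω R V : Type) [MeasurableSpace Ω] [Countable R] [Countable V]
      (ν : Measure Ω) [IsProbabilityMeasure ν] (A : Alg n Ω R V), Solves A ν →
      ∃ b : Fin n → Bool, ENNReal.ofReal (n * Real.log n / 64)
        ≤ expectedWork A ν b (fun t => ⟨t % n, Nat.mod_lt t (by omega)⟩) := by
    intro n hn Ω R V _ _ _ ν _ A hS
    refine main_bound ν hn A (fun s => ⟨fun b => ?_, fun b => ?_⟩)
    · filter_upwards [hS.agree b (robin n (by omega))] with ω hω i j x y hx hy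
      rw [← run_rounds A (by omega : 0 < n)] at hx hy
      exact hω (s * n) i j x y hx hy
    · filter_upwards [hS.valid b (robin n (by omega))] with ω hω i x hx
      rw [← run_rounds A (by omega : 0 < n)] at hx
      exact hω (s * n) i x hx
  refine ⟨h, fun n hn => ?_⟩
  unfold W
  refine le_iInf fun R => le_iInf fun V => le_iInf fun hR => le_iInf fun hV => le_iInf fun A =>
    le_iInf fun hA => ?_
  obtain ⟨b, hb⟩ := h n hn (ℕ → Bool) R V fairCoins A hA
  exact hb.trans (le_iSup₂_of_le b _ le_rfl)

end Pool.Agent.Results.MP_217fdb_lc.LogFactorLowerBound
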